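import Pool.Agent.H83.VU.Targets

/-! row BER of MP_c59857_nt (board vin): Bertrand -/

set_option autoImplicit false

namespace Pool.Agent.H38.VU

open Finset Pool.Agent.H83.VU

theorem pf_BER : T_BER := by
  intro m x hx
  induction m with
  | zero => exact ⟨∅, card_empty, fun p hp => absurd hp (notMem_empty p)⟩
  | succ m ih =>
    obtain ⟨P, hP, h⟩ := ih
    have h0 : 2 ^ m * x ≠ 0 := by positivity
    obtain ⟨q, hq, h1, h2⟩ := Nat.exists_prime_lt_and_le_two_mul (2 ^ m * x) h0
    have hqP : q ∉ P := fun hm => absurd (h q hm).2.2 (not_le.2 h1)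
    have hpow : 1 ≤ 2 ^ m := Nat.one_le_two_pow
    have hxm : x ≤ 2 ^ m * x := Nat.le_mul_of_pos_left x (by positivity)
    have hS : 2 ^ (m + 1) * x = 2 * (2 ^ m * x) := by ring
    refine ⟨insert q P, by rw [card_insert_of_notMem hqP, hP], fun p hp => ?_⟩
    rw [hS]
    rcases mem_insert.1 hp with rfl | hp
    · exact ⟨hq, by omega, h2⟩
    · obtain ⟨e1, e2, e3⟩ := h p hp
      exact ⟨e1, e2, by omega⟩

end Pool.Agent.H38.VU
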