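import Pool.Agent.H83.VU.Targets

/-! row MV2 of MP_c59857_nt (board vin): the mean value theorem with a small loss -/

set_option autoImplicit false

namespace Pool.Agent.H38.VU

open Finset Pool.Agent.H83.VU

lemma eta_le (k : ℕ) (hk : 2 ≤ k) : eta k (10 * k ^ 2) ≤ 1 / 40 := by
  have hk' : (2 : ℝ) ≤ k := by exact_mod_cast hk
  have hk0 : (0 : ℝ) < k := by linarith
  have h1 : 0 ≤ 1 - 1 / (k : ℝ) := by
    rw [sub_nonneg, div_le_one hk0]
    linarith
  have h2 : 1 - 1 / (k : ℝ) ≤ Real.exp (-(1 / (k : ℝ))) := Real.one_sub_le_exp_neg _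
  have h3 : (1 - 1 / (k : ℝ)) ^ (10 * k ^ 2) ≤ Real.exp (-(10 * (k : ℝ))) := by
    calc (1 - 1 / (k : ℝ)) ^ (10 * k ^ 2) ≤ Real.exp (-(1 / (k : ℝ))) ^ (10 * k ^ 2) :=
          pow_le_pow_left₀ h1 h2 _
      _ = Real.exp (-(10 * (k : ℝ))) := by
          rw [← Real.exp_nat_mul]
          congr 1
          push_cast
          field_simp
  have h4 : 20 * ((k : ℝ) * (k + 1)) ≤ Real.exp (10 * k) := by
    have := Real.quadratic_le_exp_of_nonneg (x := 10 * (k : ℝ)) (by positivity)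
    nlinarith
  have h5 : Real.exp (-(10 * (k : ℝ))) ≤ 1 / (20 * ((k : ℝ) * (k + 1))) := by
    rw [Real.exp_neg, ← one_div]
    exact one_div_le_one_div_of_le (by positivity) h4
  unfold eta
  calc (k * (k + 1) / 2 : ℝ) * (1 - 1 / (k : ℝ)) ^ (10 * k ^ 2)
      ≤ (k * (k + 1) / 2 : ℝ) * (1 / (20 * ((k : ℝ) * (k + 1)))) :=
        mul_le_mul_of_nonneg_left (h3.trans h5) (by positivity)
    _ = 1 / 40 := by
        field_simp
        norm_num

theorem pf_MV2 (hMVT : T_MVT) : T_MV2 := by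
  obtain ⟨C, hC, H⟩ := hMVT
  refine ⟨C, hC, fun k N hk hN => ?_⟩
  have h1 := H k (10 * k ^ 2 + 1) N hk (by omega) (le_refl _) hN
  refine h1.trans (mul_le_mul_of_nonneg_left ?_ (Real.exp_nonneg _))
  refine Real.rpow_le_rpow_of_exponent_le (by exact_mod_cast hN) ?_
  have h2 := eta_le k hk
  have h3 : 10 * k ^ 2 + 1 - 1 = 10 * k ^ 2 := by omega
  rw [h3]
  push_cast
  linarith

end Pool.Agent.H38.VU
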