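import Pool.Agent.H83.VU.TargetsG

/-! row PGN of MP_c59857_nt (board vin): Dirichlet -/

set_option autoImplicit false

namespace Pool.Agent.H38.VU

open Finset Pool.Agent.H83.VU

theorem pf_PGN : T_PGN := by
  intro ε hε
  obtain ⟨M, hM⟩ := exists_nat_ge (2 * Real.pi / ε)
  refine ⟨M + 1, fun z hz => ?_⟩
  have hpi := Real.pi_pos
  obtain ⟨k, hk0, hkM, hk⟩ := Real.exists_nat_abs_mul_sub_round_le (Complex.arg z / (2 * Real.pi))
    (Nat.succ_pos M)
  refine ⟨k, hk0, hkM, ?_⟩
  set y : ℝ := (k : ℝ) * (Complex.arg z / (2 * Real.pi)) -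
    round ((k : ℝ) * (Complex.arg z / (2 * Real.pi))) with hy
  have hzk : z ^ k = Complex.exp (Complex.I * ((2 * Real.pi * y : ℝ) : ℂ)) := by
    have h1 : z = Complex.exp (Complex.arg z * Complex.I) := by
      have := Complex.norm_mul_exp_arg_mul_I z
      rw [hz, Complex.ofReal_one, one_mul] at this
      exact this.symm
    have h2 : z ^ k = Complex.exp (k * (Complex.arg z * Complex.I)) := by
      rw [Complex.exp_nat_mul, ← h1]
    have h3 : (Complex.I * ((2 * Real.pi * y : ℝ) : ℂ)) =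
        k * (Complex.arg z * Complex.I) -
          (round ((k : ℝ) * (Complex.arg z / (2 * Real.pi))) : ℤ) * (2 * Real.pi * Complex.I) := by
      rw [hy]
      push_cast
      have : (Real.pi : ℂ) ≠ 0 := by exact_mod_cast hpi.ne'
      field_simp
    rw [h2, h3, Complex.exp_sub, Complex.exp_int_mul_two_pi_mul_I, div_one]
  rw [hzk]
  refine (Real.norm_exp_I_mul_ofReal_sub_one_le).trans ?_
  rw [Real.norm_eq_abs, abs_mul, abs_of_pos (by positivity)]
  have h4 : 2 * Real.pi / ((M : ℝ) + 1) ≤ ε := by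
    rw [div_le_iff₀ (by positivity)]
    rw [div_le_iff₀ hε] at hM
    nlinarith
  have h5 : |y| ≤ 1 / ((M : ℝ) + 1) := by
    refine hk.trans ?_
    push_cast
    exact one_div_le_one_div_of_le (by positivity) (by linarith)
  calc 2 * Real.pi * |y| ≤ 2 * Real.pi * (1 / ((M : ℝ) + 1)) :=
        mul_le_mul_of_nonneg_left h5 (by positivity)
    _ = 2 * Real.pi / ((M : ℝ) + 1) := by ring
    _ ≤ ε := h4

end Pool.Agent.H38.VU
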