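import Pool.Agent.H83.VU.TargetsG

/-! row TR of MP_c59857_nt (board vin): the mean value is not close to one -/

set_option autoImplicit false

namespace Pool.Agent.H38.VU

open Finset Pool.Agent.H83.VU

theorem pf_TR : T_TR := by
  refine ⟨1 / 10000, by norm_num, by norm_num, fun u hu => ?_⟩
  have hu2 : (1 / 100 : ℝ) ≤ u ^ 2 := by
    rw [← sq_abs]
    nlinarith
  set t : ℝ := u * Real.log 2 with ht
  have hni : ni u 2 = Complex.exp ((t : ℝ) * Complex.I) := by
    unfold ni
    norm_num [ht]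
  have h1 : ‖2 * ni u 2 - 1‖ ^ 2 = 5 - 4 * Real.cos t := by
    rw [hni, Complex.exp_mul_I, ← Complex.ofReal_cos, ← Complex.ofReal_sin, ← Complex.normSq_eq_norm_sq,
      Complex.normSq_apply]
    simp only [Complex.sub_re, Complex.mul_re, Complex.add_re, Complex.ofReal_re, Complex.ofReal_im,
      Complex.I_re, Complex.I_im, Complex.sub_im, Complex.mul_im, Complex.add_im, Complex.one_re,
      Complex.one_im, Complex.re_ofNat, Complex.im_ofNat]
    have := Real.sin_sq_add_cos_sq t
    nlinarith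
  have h2 : ‖(1 + (u : ℂ) * Complex.I)‖ ^ 2 = 1 + u ^ 2 := by
    rw [← Complex.normSq_eq_norm_sq, Complex.normSq_apply]
    simp only [Complex.add_re, Complex.one_re, Complex.mul_re, Complex.ofReal_re, Complex.I_re,
      Complex.ofReal_im, Complex.I_im, Complex.add_im, Complex.one_im, Complex.mul_im]
    ring
  have h3 : 1 - t ^ 2 / 2 ≤ Real.cos t := Real.one_sub_sq_div_two_le_cos
  have hl := Real.log_two_lt_d9
  have hl0 : 0 < Real.log 2 := Real.log_pos (by norm_num)
  have h4 : Real.log 2 ^ 2 ≤ 0.4805 := by nlinarith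
  have h5 : t ^ 2 ≤ 0.4805 * u ^ 2 := by
    rw [ht, mul_pow]
    nlinarith [sq_nonneg u]
  have h6 : ‖mi u‖ ^ 2 ≤ (1 - 1 / 10000) ^ 2 := by
    unfold mi
    rw [norm_div, div_pow, h1, h2, div_le_iff₀ (by positivity)]
    nlinarith
  exact le_of_sq_le_sq h6 (by norm_num)

end Pool.Agent.H38.VU
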